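import Pool.Agent.Run7.h621.LA.LogFin

/-!
MP_c69980_ag, Q1: a class of quasi-projective varieties that are of log-general type and bounded
modulo one line, the only one that meets the boundary in at most two points; conditions 4 and 5.

Let `K` be an algebraically closed field of characteristic `0`, such as the complex numbers, and let
`k` be a field contained in `K`, such as the rational numbers, with algebraic closure `k'` in `K`.
Let `V` be a closed subset of projective space of dimension `n`, defined over `k'`, of dimension at
most `m`. For `a` in a finite set `A` let `H_a` be a form of degree `d_a` over `K`, not `0`. The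
forms are supposed to satisfy at most `s` independent algebraic conditions over `k`: the ratios of
the coefficients of the `H_a` generate a field of transcendence degree at least `N - s` over `k`,
where `N` is the sum of the `binom (d_a + n) n - 1`, the dimension of the space of parameters. The
conditions can be of any kind, and nothing is supposed on the singularities.

Let `C` be a subset of `A`, let `X` be the part of `V` where `H_a = 0` for `a` in `C`, let `D` be
the union of the `H_b = 0` for `b` not in `C`, and `U` the complement of `D` in `X`. A bad line is a
line over `K` that is contained in `X`, not contained in `D`, and meets `D` in at most two points.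

Let `q` be `0`, or such that `|A| + 2 q ≤ s`, `|A| + 4 q ≤ s + 3` and `s ≤ N`, and suppose that
`2 m + s + 1 ≤ ∑ d_a + |C| + q`. Then:

(1) there is at most one bad line; if there is one, then `∑ d_a + |C| ≤ s + 2 n`, and if moreover
`C = A`, so that `D` is empty, then `∑ (d_a + 1) + 2 ≤ s + 2 n`;

(2) a closed subvariety of `U` of positive dimension is of log-general type if and only if it is not
the bad line (without `D`);

(3) for every nonconstant map from a smooth projective curve of genus `g` to `X`, whose image is not
contained in `D`, the degree is at most `2 g - 2` plus the number of the points that are mapped to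
`D`, unless the image is the bad line;

(4) a form vanishes on the bad line (if there is one) if and only if it vanishes on the images of all
nonconstant morphisms from the multiplicative group to `U`.

So if `U` is irreducible, of dimension at least `2`, let `Δ` be the bad line without `D`, or the empty
set if there is no bad line. Then `U` is of log-general type, condition 4, and it is bounded modulo
`Δ`, condition 5: the degrees of the morphisms from a given curve `C` to `U` whose image is not in
`Δ` are bounded, and morphisms of bounded degree are in finitely many families. By (4), `Δ` is
contained in the exceptional sets of condition 2: every closed set that contains all entire curves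
contains it, because the exponential function is an entire function with values in the
multiplicative group. It is the smallest possible `Δ` in condition 5 too, up to the same argument
with the powers of the coordinate of the multiplicative group. The set `Δ` is empty if
`s < ∑ d_a + |C| - 2 n`.

For example, let `V` be the whole space, so that `m = n`. For the complement of a hypersurface of
degree `d` the condition is `2 n + s + 1 ≤ d + q`, with `q = 0`, or `1 + 2 q ≤ s` and
`1 + 4 q ≤ s + 3`. So `s` can be about `4 (d - 2 n) / 3`, and bad lines occur for `s ≥ d - 2 n`.

A closed subvariety of `U` of dimension `w` is given by its function field `L`, and its generic point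
`x`, with homogeneous coordinates in `L`; it is contained in the line with the basis `p`, `r` if
`x = u p + v r`, and then it is this line, as its dimension is positive. A prime divisor `Q`
over its closure has its centre in `D` if `d_b min_i ord_Q (x_i) < ord_Q (H_b (x))` for some `b` not
in `C`; `pord Q x` is the minimum of the orders `ord_Q (x_i)`. In (3), `L` is the function field of
the curve, `pht K x` is the degree and `canDeg K L` is `2 g - 2`. The morphisms from the
multiplicative group to projective space are given by polynomials without common zeros outside
of `0`.
-/

set_option autoImplicit false

namespace Pool.Agent.Results.MP_c69980_ag.BoundedModuloLines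

open MvPolynomial FF Pool.Agent.W603.LV Pool.Agent.W603.PV Pool.Agent.W602.GT Pool.Agent.TH145.MG
open Pool.Agent.Run7.h621.LG Pool.Agent.Run7.h621.LA

theorem result {k K : Type} [Field k] [Field K] [IsAlgClosed K] [CharZero K] [Algebra k K]
    {n m s q : ℕ}
    -- a closed subset of projective space, of dimension at most `m`
    (V : Set (MvPolynomial (Fin (n + 1)) (algebraicClosure k K)))
    (hVh : ∀ f ∈ V, ∃ e, f.IsHomogeneous e) (hV : DimLE (algebraicClosure k K) V m)
    -- forms of degrees `d a` that satisfy at most `s` independent conditions over `k`
    {A : Type} [Fintype A] (d : A → ℕ) (H : A → MvPolynomial (Fin (n + 1)) K)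
    (h : ConditionsLE k H d s) (hq : Small n d s q)
    -- the pair
    (C : Finset A) (hnum : 2 * m + s + 1 ≤ ∑ a, d a + C.card + q) :
    -- there is at most one bad line
    (AtMostOne V H C ∧ ∀ p r, BadLine V H C p r → ∑ a, d a + C.card ≤ s + 2 * n ∧
      (C = Finset.univ → ∑ a, (d a + 1) + 2 ≤ s + 2 * n)) ∧
    -- closed subvarieties of positive dimension
    (∀ (L : Type) [Field L] [Algebra K L] (w : ℕ) (x : Fin (n + 1) → L), 0 < w →
      Algebra.trdeg K L = w → x ≠ 0 → coords K x = ⊤ → OnPairOf V H C x →
      ((LogGeneralType K L w fun Q => Q ∈ bdry C H d x) ↔
        ¬ ∃ p r, BadLine V H C p r ∧
          ∃ u v : L, ∀ i, x i = u * algebraMap K L (p i) + v * algebraMap K L (r i))) ∧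
    -- curves
    (∀ (L : Type) [Field L] [Algebra K L] [IsFF K L] (x : Fin (n + 1) → L),
      (∃ j l, Transcendental K (x j / x l)) → OnPairOf V H C x →
      (bdry C H d x).Finite ∧
      (OnBadLine V H C x ∨ pht K x ≤ canDeg K L + (bdry C H d x).ncard)) ∧
    -- multiplicative groups
    ∀ (G : MvPolynomial (Fin (n + 1)) K) (e : ℕ), G.IsHomogeneous e →
      (VanLines V H C G ↔ VanGm V H C G) := by
  refine ⟨⟨atMostOne hV h hq C hnum, fun p r hb => ⟨bad_count h C hb, ?_⟩⟩,
    fun L _ _ w x hw htr hx0 htop hx => gt_iff hVh hV h hq C hnum hw htr hx0 htop hx,
    fun L _ _ _ x hnc hx => main_curves hVh hV h hq C hnc hx hnum,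
    fun G e hG => (special hVh hV h hq C hnum hG).2⟩
  rintro rfl
  have : Infinite K := IsAlgClosed.instInfinite
  refine lines h Finset.univ ⟨hb.1.1, ?_⟩
  rintro f ⟨a, -, rfl⟩
  exact hb.1.2 _ (Or.inr ⟨a, Finset.mem_univ a, rfl⟩)

end Pool.Agent.Results.MP_c69980_ag.BoundedModuloLines
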