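import Pool.Agent.Run7.h418.E.Ptd

/-!
MP_c69980_ag, Q1, conditions (2), (4) and (3) for abelian varieties: entire curves, general type and
pointed maps, for the closed subvarieties of projective varieties with symmetric differentials which
generate a symmetric power of the cotangent sheaf, with one exceptional set for entire curves and
subvarieties.
-/

set_option autoImplicit false

open Pool.Agent.W602.GT Pool.Agent.N155 Pool.Agent.TH182.TC Run7.h418 Run7.h418.Z

namespace Pool.Agent.Results.MP_c69980_ag.EntireCurvesGeneralType

/-- Let `X = {F = 0}` be a complex projective variety and suppose that finitely many symmetric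
differentials `σ j` of degree `m > 0` generate `Sᵐ Ω` on `X`. Let `U` be a closed subvariety of `X`
of positive dimension, with generic point `y`. The following are equivalent.

(a) `U` is of general type.

(b) There is a proper closed subset of `U` which contains all nonconstant entire curves in `U`.

(c) There is a proper closed subset of `U` which contains all nonconstant entire curves in `U`, and
all closed subvarieties of `U` of positive dimension which are not of general type.

(d) There is a proper closed subset of `U` which contains all nonconstant holomorphic images of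
complex tori in `U`.

(e) There is a proper closed subset `Δ` of `U` such that for every complex torus `A` which has a
holomorphic immersion into projective space (an abelian variety) and every point `x` of `U` outside
of `Δ` there are only finitely many holomorphic maps from `A` to `U` which map `0` to `x`. (This is
condition (3) of the question for abelian varieties in the place of arbitrary varieties, so condition
(3) implies (a) to (e).) -/
theorem result {n m : ℕ} {ι κ : Type} [Fintype κ] {F : ι → MvPolynomial (Fin (n + 1)) ℂ}
    (hF : ∀ i, IsForm (F i)) (hm : 0 < m)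
    {σ : κ → (Fin (n + 1) → ℂ) → (Fin (n + 1) → ℂ) → ℂ} (hσ : ∀ j, SymForm F m (σ j))
    (hgen : Generates F m σ) {K : Type} [Field K] [Algebra ℂ K] {w : ℕ} {y : Fin (n + 1) → K}
    (hw : 0 < w) (hy : SubVar F K w y) :
    [GeneralType ℂ K w,
      PseudoBrody y,
      ∃ G : MvPolynomial (Fin (n + 1)) ℂ, IsForm G ∧ val y G ≠ 0 ∧
        (∀ p : ℂ → PS n, HolMap p → (∀ z, (p z).rep ∈ VarPts ℂ y) → (∃ z w, p z ≠ p w) →
          Van p G) ∧
        ∀ (L : Type) [Field L] [Algebra ℂ L] (w' : ℕ) (y' : Fin (n + 1) → L), 1 ≤ w' →
          SubVar F L w' y' → (∀ H : MvPolynomial (Fin (n + 1)) ℂ, IsForm H → val y H = 0 →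
            val y' H = 0) → ¬ GeneralType ℂ L w' → val y' G = 0,
      PseudoTorus y,
      E.FinitePointed y].TFAE := by
  tfae_have 1 ↔ 2 := E.thm_iff hF hm hσ hgen hw hy
  tfae_have 1 ↔ 4 := U.general_iff_torus hF hm hσ hgen hw hy
  tfae_have 3 → 2 := by
    rintro ⟨G, hG, hG0, h1, -⟩
    exact ⟨G, hG, hG0, fun p hp hV hne => h1 p hp hV hne⟩
  tfae_have 4 → 3 := by
    rintro ⟨G, hG, hG0, hT⟩
    refine ⟨G, hG, hG0, fun p hp hpV hne => ?_, fun L _ _ w' y' hw' hy' hsub hgt => ?_⟩
    · refine E.van_of_torus E.hyps hF hm hσ hgen hG hp
        (fun z => ⟨(hpV z).1, fun i => (hpV z).2 (F i) (hF i) (hy.mem i)⟩) hne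
        fun q b g hg hH hper hgne t => hT q b g hg (fun t => ⟨(g t).rep_nonzero, fun H hH' h0 => ?_⟩)
          hper hgne t
      rw [val_ev]
      refine hH H hH' (fun z => ?_) t
      rw [← val_ev]
      exact (hpV z).2 H hH' h0
    · by_contra h0
      obtain ⟨q, b, g, hq, h1, h2, h3, t, ht⟩ := R.exists_torus hm hσ hgen hy' hF hw' hgt hG h0
      exact ht (hT q b g (R.holo_of_imm h1) (fun t => ⟨(h2 t).1, fun H hH h00 =>
        (h2 t).2 H hH (hsub H hH h00)⟩) h3 (R.immAt_ne hq h1) t)
  tfae_have 4 → 5 := E.finitePointed_of_torus
  tfae_have 5 → 1 := E.general_of_finitePointed hF hm hσ hgen hw hy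
  tfae_finish

end Pool.Agent.Results.MP_c69980_ag.EntireCurvesGeneralType
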