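import Pool.Agent.Run7.h830.CS.Quasi

/-!
# The extended Lang-Vojta conjecture for quasi-projective varieties whose function field carries a map
with many preperiodic points

A quasi-projective variety `U` of dimension `w ≥ 1` is given by its closure `X` in a projective space, with
the function field `K` and the homogeneous coordinates `x` of the generic point (`coords ℂ x = ⊤`: the
ratios of the coordinates generate `K`), and by a set `S` of forms: `U = OpenPts x S` is the set of the
points of `X` at which not all forms in `S` vanish.

`ManyPrep ℂ d B p q` (`Pool/Agent/Q103/EC/Mxv.lean`): `f = p / q` is a rational map of degree `d` of the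
projective line over `K` (a family of rational maps over a nonempty open subset of `U`) with at least `B`
preperiodic points in `P^1(K)` (preperiodic rational sections), and the moduli map `U ⇢ M_d` is generically
finite: if `f` is conjugate over an algebraic closure of `K` to a map with coefficients algebraic over a
field between `ℂ` and `K`, then `K` is algebraic over this field. The number `B` depends only on `d`, and
there are examples for every `d` and `B`, of dimension `2 d - 2` (`Pool.Agent.Q103.RP.exists_over`): covers
of the moduli spaces `M_d`; every variety with a generically finite rational map to an example is an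
example.

Theorem. For every `d ≥ 2` there is a number `B` such that for all quasi-projective varieties `U`, smooth or
singular, whose function field carries such a map of degree `d` with at least `B` preperiodic points, all
five conditions of Q1 are satisfied, with one closed subset `Δ = {R = 0} ∩ U ≠ U` which depends only on the
closure `X` of `U`:

(1) `KobayashiOff`: the Kobayashi pseudodistance of `U` (lengths of chains of holomorphic discs in `U`) of
two different points of `U` which are not both in `Δ` is positive;

(2) `EntireOff`: all entire curves in `U` lie in `Δ`;

(3) `PointedOff`: for every affine variety `Y` (of any dimension, with the coordinate ring `A` and the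
function field `F`), every point `η` of `Y` and every point `a` of `U` not in `Δ` there are only finitely
many rational maps from `Y` to `X` which are regular at `η` with the value `a`. (So for every variety `Y`
with a point `y` there are only finitely many morphisms `Y ⟶ U` which map `y` to `a`: a morphism is
determined by its restriction to an affine neighbourhood of `y`.)

(4) `U` is of log general type: `LogGeneralType ℂ K w Bd` for every set `Bd` of prime divisors at infinity;

(5) `DegreeOff`: the degree of the morphisms from smooth projective curves of genus `g` to `X` which are not
contained in `Δ` is at most `A * max (2 * g - 2) 0`. As morphisms of bounded degree from a given curve form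
a scheme of finite type, `U` is bounded modulo `Δ`.

Proof. (1), (2), (4), (5), and (3) for curves `Y`, are in the helper theorem `Pool.Agent.Q103.EC.main` of
the starting files (helper103 and others), which was not handed in for this problem. (3) is new and deduced
from the case of curves: for infinitely many maps from `Y` there is a curve through `η` on which they are
different (`Pool/Agent/Run7/h830/CS/Var.lean`, with `Pool.Agent.TH152.BB.cur_all`; adapted from
`Pool.Agent.TH152.BB.var_of_lin`).
-/

set_option autoImplicit false

namespace Pool.Agent.Results.MP_c69980_ag.ManyPreperiodicPoints

open FF Polynomial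
open Pool.Agent.W602.GT
open Pool.Agent.Q103.EC (ManyPrep)
open Pool.Agent.Run7.h830.CS (OpenPts KobayashiOff EntireOff PointedOff DegreeOff)

/-- **The extended Lang-Vojta conjecture** for quasi-projective varieties whose function field carries a map
with many preperiodic points: all conditions are satisfied. -/
theorem result (d : ℕ) (hd : 2 ≤ d) : ∃ B : ℕ, ∀ (K : Type) [Field K] [Algebra ℂ K] (p q : K[X]),
    ManyPrep ℂ d B p q → ∀ w : ℕ, 1 ≤ w → Algebra.trdeg ℂ K = w →
    (∀ Bd : Place ℂ K → Prop, LogGeneralType ℂ K w Bd) ∧
    ∀ (M : ℕ) (x : Fin (M + 1) → K), x ≠ 0 → coords ℂ x = ⊤ →
      ∃ R : MvPolynomial (Fin (M + 1)) ℂ, IsForm R ∧ val x R ≠ 0 ∧ DegreeOff x R ∧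
        ∀ S : Set (MvPolynomial (Fin (M + 1)) ℂ), KobayashiOff (OpenPts x S) R ∧
          EntireOff (OpenPts x S) R ∧ PointedOff x (OpenPts x S) R := by
  obtain ⟨B, hB⟩ := Pool.Agent.Q103.EC.main d hd
  refine ⟨B, fun K _ _ p q h w hw htr => ?_⟩
  obtain ⟨h1, h2⟩ := hB K p q h w hw htr
  refine ⟨Pool.Agent.Run7.h830.CS.logGeneral_of_general h1, fun M x hx hgen => ?_⟩
  obtain ⟨R, hR⟩ := h2 M x hx hgen
  exact ⟨R, hR.form, hR.ne, hR.degree, Pool.Agent.Run7.h830.CS.quasi hR⟩

end Pool.Agent.Results.MP_c69980_ag.ManyPreperiodicPoints
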