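import Pool.Agent.Run7.h34.GK.Fin

/-!
MP_c69980_ag, Q1, conditions 2 and 4: the strata of a general hypersurface arrangement of total degree
at least `2 n + 1` in `P^n` (for instance the complement of the arrangement), and quasi-projective
varieties over them which are highly ramified over `n + 1` hyperplanes.

`CI n d` (`Pool/Agent/TH182/VD/Main.lean`): the indices `(i, α)`, `|α| = d i`, of the coefficients of
the forms `F_i` of degree `d i` in `n + 1` variables. `Form n`: the linear forms on `ℂ^(n+1)`.
`formK φ b` is the value of the linear form `φ` at the vector `b` over a field which contains `ℂ`.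
`RamifiedCurve m ℓ S f` (`Pool/Agent/Run7/h34/GK/Main.lean`): wherever it meets some of the
hyperplanes `ℓ i = 0` in which it is not contained, the curve `f` has a contact of order at least `m`
with one of these. `Extends f`: extension to the disc of a map from the punctured disc.
`BiSet N n`: the closed subsets of `P^N × P^n`. `withHyp Δ Q` (`Pool/Agent/Run7/h34/GK/Cov.lean`): the
union of `Δ` with the preimage of the hypersurface `Q = 0` of `P^n`. `RamifiedOff X D ℓ m`
(`Pool/Agent/TH152/HY/QDefs.lean`): the projection from `X - D` to `P^n` is ramified to order at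
least `m` over the hyperplanes `ℓ i = 0`. `QEntire X D u v`: entire curves in `X - D`.
`Four X D K a b r` (`Pool/Agent/Run7/h34/UG/Main.lean`): `X - D` is of log general type, and all
holomorphic maps from the punctured disc to `X - D` extend, all entire curves in `X - D` are
constant, and all closed subvarieties of `X - D` of positive dimension are of log general type,
except for those which lie in a proper closed subset of `X - D`.
-/

set_option autoImplicit false

namespace Pool.Agent.Results.MP_c69980_ag.RamifiedOverGeneralPairs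

open MvPolynomial Metric Pool.Agent.W602.Cov Pool.Agent.W602.Cov.R Pool.Agent.W602.Cov.Cover
  Pool.Agent.W602.GT Pool.Agent.TH152.HY Pool.Agent.W603.BP Run7.h34.UG Run7.h34.GK
open Pool.Agent.TH182.VD (CI)

/-- For all `n` and all degrees `d i ≥ 1`, `i < q`, there are a number `m` and a polynomial `Φ ≠ 0`
in the coefficients of `q` forms `F_i` of the degrees `d i` in `n + 1` variables such that the
following holds for all forms at which `Φ` does not vanish, for all sets `Z` of indices with
`2 n + 1 ≤ ∑ d i + #Z` and for all systems of `n + 1` hyperplanes `ℓ j = 0` of `P^n` without common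
points. Let `U` be the stratum of the points of `P^n` such that `F_i = 0` for `i ∈ Z` and `F_i ≠ 0`
for `i ∉ Z`.

(1) All entire curves in `U` which are ramified to order at least `m` over the hyperplanes are
constant.

(2) All holomorphic maps from the punctured disc to `U` which are ramified to order at least `m` over
the hyperplanes extend to the disc.

(3) Let `Y = X - D` be a quasi-projective variety with a morphism `π` to `U` which is ramified to
order at least `m` over the hyperplanes; `X` and `Δ` are closed in `P^N × P^n`, and `D` is the union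
of `Δ` and the preimage of the hypersurfaces `F_i = 0`, `i ∉ Z`. For all entire curves `f` in `Y`
which are not mapped to one of the hyperplanes, `π f` is constant. If `Y` is irreducible of positive
dimension and generically finite over its image, and the image is not contained in one of the
hyperplanes, then `Y` is of log general type, pseudo Brody hyperbolic, pseudo Picard hyperbolic and
strongly of log general type. -/
theorem result (n q : ℕ) (d : Fin q → ℕ) (hd : ∀ i, 1 ≤ d i) :
    ∃ (m : ℕ) (Φ : MvPolynomial (CI n d) ℂ), Φ ≠ 0 ∧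
      ∀ F : Fin q → MvPolynomial (Fin (n + 1)) ℂ, (∀ i, (F i).IsHomogeneous (d i)) →
        eval (fun x : CI n d => coeff x.2.1 (F x.1)) Φ ≠ 0 →
      ∀ Z : Finset (Fin q), 2 * n + 1 ≤ ∑ i, d i + Z.card →
      ∀ ℓ : Fin (n + 1) → Form n, (∀ x, (∀ j, ℓ j x = 0) → x = 0) →
        (∀ f : ℂ → Fin (n + 1) → ℂ, Differentiable ℂ f →
          (∀ z, f z ≠ 0 ∧ (∀ i ∈ Z, eval (f z) (F i) = 0) ∧ ∀ i ∉ Z, eval (f z) (F i) ≠ 0) →
          RamifiedCurve m ℓ Set.univ f → ∀ z, ∃ c : ℂ, f z = c • f 0) ∧
        (∀ f : ℂ → Fin (n + 1) → ℂ, DifferentiableOn ℂ f (ball 0 1 \ {0}) →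
          (∀ z ∈ ball (0 : ℂ) 1 \ {0}, f z ≠ 0 ∧ (∀ i ∈ Z, eval (f z) (F i) = 0) ∧
            ∀ i ∉ Z, eval (f z) (F i) ≠ 0) →
          RamifiedCurve m ℓ (ball 0 1 \ {0}) f → Extends f) ∧
        ∀ (N : ℕ) (X Δ : BiSet N n), (∀ u v, X.Mem u v → ∀ i ∈ Z, eval v (F i) = 0) →
          RamifiedOff X (withHyp Δ (∏ i ∈ Finset.univ \ Z, F i)) ℓ m →
          (∀ u v, QEntire X (withHyp Δ (∏ i ∈ Finset.univ \ Z, F i)) u v →
            (∀ j, ∃ z, ℓ j (v z) ≠ 0) → ∀ z z', ∃ c : ℂ, v z = c • v z') ∧
          ∀ (K : Type) [Field K] [Algebra ℂ K] (a : Fin (N + 1) → K) (b : Fin (n + 1) → K)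
            (r : ℕ), X.FunctionField K a b →
            ¬ (withHyp Δ (∏ i ∈ Finset.univ \ Z, F i)).Mem a b → Algebra.trdeg ℂ K = r → 0 < r →
            Algebra.IsAlgebraic
              (IntermediateField.adjoin ℂ {f : K | ∃ i j, b j ≠ 0 ∧ f = b i / b j}) K →
            (∀ j, formK (ℓ j) b ≠ 0) →
            Four X (withHyp Δ (∏ i ∈ Finset.univ \ Z, F i)) K a b r := by
  obtain ⟨Φ, h1, h2⟩ := exists_phi n q d
  refine ⟨mlog n q d, Φ, h1, fun F hF hΦ Z hZ ℓ hℓ => ?_⟩
  have hGm := h2 F hF hΦ Z hZ
  have hind := lin_of hℓ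
  refine ⟨fun f hf hfU hr z => log_entire (dd_pos hd) hF (dd_mul d) hGm hind hf
      (fun z => (hfU z).1) (fun z => (hfU z).2.1) (fun z => (hfU z).2.2) hr z 0,
    fun f hf hfU hr => ?_, fun N X Δ hX hram => ⟨fun u v huv hv z z' =>
      cov_entire (dd_pos hd) hF (dd_mul d) hGm hind hX hram huv hv z z',
      fun K _ _ a b r hK hoff htr hr halg hlb =>
        cov_four (dd_pos hd) hF (dd_mul d) hGm hind hX hram hK halg htr hr hlb hoff⟩⟩
  refine log_disc (dd_pos hd) hF (dd_mul d) hGm hind (Pool.Agent.W601.PH.an_of_diffOn hf)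
    (fun z hz => (hfU z (mem_disc.2 hz)).1) (fun z hz => (hfU z (mem_disc.2 hz)).2.1)
    (fun z hz => (hfU z (mem_disc.2 hz)).2.2) ?_
  intro z hz hex
  obtain ⟨i, ⟨z', hz', h4⟩, h5⟩ := hr z (mem_disc.2 hz) (by
    obtain ⟨i, ⟨z', hz', h4⟩, h5⟩ := hex
    exact ⟨i, ⟨z', mem_disc.2 hz', h4⟩, h5⟩)
  exact ⟨i, ⟨z', mem_disc.1 hz', h4⟩, h5⟩

end Pool.Agent.Results.MP_c69980_ag.RamifiedOverGeneralPairs
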